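import Mathlib

namespace Pool.Agent.Results.MP_e96fbd_an.Q1False
open Complex

/-- The character `t ↦ exp (2 π i x t / k)`. -/
noncomputable def chi {k : ℕ} (x t : ZMod k) : ℂ :=
  exp (2 * Real.pi * I * ((x.val : ℂ) * (t.val : ℂ)) / k)

/-- The Sidon constant of `E`. -/
noncomputable def sidon {k : ℕ} (E : Finset (ZMod k)) : ℝ :=
  sSup {s | ∃ a : ZMod k → ℂ, (∀ t, ‖∑ x ∈ E, a x * chi x t‖ ≤ 1) ∧ s = ∑ x ∈ E, ‖a x‖}

/-- `F` is the image of `E` under an automorphism followed by a translation. -/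
def Equivalent {k : ℕ} (E F : Finset (ZMod k)) : Prop :=
  ∃ (u : (ZMod k)ˣ) (c : ZMod k), F = E.image fun x => u * x + c

noncomputable def w : ℂ := exp (2 * Real.pi * I / 16)

lemma chi_eq (x t : ZMod 16) : chi x t = w ^ (x.val * t.val) := by
  rw [chi, w, ← exp_nat_mul]; congr 1; push_cast; ring

lemma w4 : w ^ 4 = I := by
  rw [w, ← exp_nat_mul]
  refine Eq.trans ?_ exp_pi_div_two_mul_I
  congr 1; push_cast; ring

lemma wn : ‖w‖ = 1 := by
  rw [w, show 2 * Real.pi * I / 16 = (Real.pi / 8 : ℝ) * I by push_cast; ring, norm_exp_ofReal_mul_I]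

lemma four (g c : ℂ) (h : ∀ j < 4, ‖g + c * I ^ j‖ ≤ 1) :
    2 * ‖g‖ ^ 2 + 2 * ‖c‖ ^ 2 + 2 * (√2 * ‖g‖ * ‖c‖) ≤ 2 := by
  have e : ∀ z : ℂ, ‖z‖ ≤ 1 → z.re ^ 2 + z.im ^ 2 ≤ 1 := fun z hz => by
    have := Complex.sq_norm z
    rw [normSq_apply] at this
    nlinarith [norm_nonneg z]
  have h0 := e _ (h 0 (by norm_num))
  have h1 := e _ (h 1 (by norm_num))
  have h2 := e _ (h 2 (by norm_num))
  have h3 := e _ (h 3 (by norm_num))
  simp [pow_succ] at h0 h1 h2 h3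
  have a := Complex.sq_norm g
  have b := Complex.sq_norm c
  rw [normSq_apply] at a b
  set D := 1 - ‖g‖ ^ 2 - ‖c‖ ^ 2 with hD
  set P := g.re * c.re + g.im * c.im
  set Q := g.im * c.re - g.re * c.im
  have p1 : 2 * P ≤ D := by simp only [P]; nlinarith
  have p2 : -D ≤ 2 * P := by simp only [P]; nlinarith
  have q1 : 2 * Q ≤ D := by simp only [Q]; nlinarith
  have q2 : -D ≤ 2 * Q := by simp only [Q]; nlinarith
  have s : (√2 * ‖g‖ * ‖c‖) ^ 2 = 2 * (P ^ 2 + Q ^ 2) := by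
    rw [mul_pow, mul_pow, Real.sq_sqrt (by norm_num), a, b]; simp only [P, Q]; ring
  have : √2 * ‖g‖ * ‖c‖ ≤ D := abs_le_of_sq_le_sq' (by nlinarith) (by linarith) |>.2
  linarith

lemma key (a b c c' : ℂ) (hc : ‖c'‖ = ‖c‖) (h : ∀ j < 4, ‖a + b + c * I ^ j‖ ≤ 1)
    (h' : ∀ j < 4, ‖a - b + c' * I ^ j‖ ≤ 1) : ‖a‖ + (‖c‖ + ‖b‖) ≤ √2 := by
  have h1 := four _ _ h
  have h2 := four _ _ h'
  rw [hc] at h2
  have par := parallelogram_law_with_norm ℂ a b
  have r : √2 ^ 2 = 2 := Real.sq_sqrt (by norm_num)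
  have r0 : 0 ≤ √2 := Real.sqrt_nonneg _
  have gen : ∀ G : ℝ, 0 ≤ G → ‖a‖ ^ 2 + ‖b‖ ^ 2 ≤ G ^ 2 →
      2 * G ^ 2 + 2 * ‖c‖ ^ 2 + 2 * (√2 * G * ‖c‖) ≤ 2 → ‖a‖ + (‖c‖ + ‖b‖) ≤ √2 := by
    intro G g0 g1 g2
    have u : ‖a‖ + ‖b‖ ≤ √2 * G := abs_le_of_sq_le_sq' (by
      rw [mul_pow, r]; nlinarith [sq_nonneg (‖a‖ - ‖b‖)]) (by positivity) |>.2
    have v : √2 * G + ‖c‖ ≤ √2 := abs_le_of_sq_le_sq' (by
      rw [add_sq, mul_pow, r]; nlinarith [sq_nonneg ‖c‖]) r0 |>.2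
    linarith
  rcases le_total ‖a + b‖ ‖a - b‖ with l | l
  · exact gen _ (norm_nonneg _) (by nlinarith [norm_nonneg (a + b)]) h2
  · exact gen _ (norm_nonneg _) (by nlinarith [norm_nonneg (a - b)]) h1

lemma w8 : w ^ 8 = -1 := by rw [show 8 = 4 * 2 from rfl, pow_mul, w4, I_sq]

lemma val (x : ZMod 16) (h0 : x ≠ 0) (h8 : x ≠ 8)
    (h : ∀ a b c : ℂ, (∀ t : ZMod 16, ‖a + (c * w ^ (x.val * t.val) + b * (-1) ^ t.val)‖ ≤ 1) →
      ‖a‖ + (‖c‖ + ‖b‖) ≤ √2) : sidon ({0, x, 8} : Finset (ZMod 16)) = √2 := by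
  have s : ∀ {M : Type} [AddCommMonoid M] (f : ZMod 16 → M),
      ∑ y ∈ ({0, x, 8} : Finset (ZMod 16)), f y = f 0 + (f x + f 8) := fun f => by
    rw [Finset.sum_insert (by simp [h0.symm]; decide), Finset.sum_pair h8]
  have e : ∀ (a : ZMod 16 → ℂ) t, ∑ y ∈ ({0, x, 8} : Finset (ZMod 16)), a y * chi y t =
      a 0 + (a x * w ^ (x.val * t.val) + a 8 * (-1) ^ t.val) := fun a t => by
    rw [s, chi_eq, chi_eq, chi_eq, show (8 : ZMod 16).val = 8 from rfl, pow_mul w 8, w8]; simp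
  refine IsGreatest.csSup_eq ⟨⟨fun y => if y = 0 then (√2 / 2 : ℝ) else if y = 8 then
    (√2 / 2 : ℝ) * I else 0, fun t => ?_, ?_⟩, ?_⟩
  · rw [e, if_pos rfl, if_neg h0, if_neg h8, if_neg (by decide), if_pos rfl]
    have r : √2 * √2 = 2 := Real.mul_self_sqrt (by norm_num)
    rw [← sq_le_one_iff₀ (norm_nonneg _), Complex.sq_norm, normSq_apply]
    rcases neg_one_pow_eq_or ℂ t.val with z | z <;> rw [z] <;> simp <;> nlinarith
  · rw [s]
    beta_reduce
    rw [if_pos rfl, if_neg h0, if_neg h8, if_neg (by decide), if_pos rfl]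
    simp [abs_of_nonneg (Real.sqrt_nonneg 2)]
  · rintro _ ⟨a, ha, rfl⟩
    rw [s]
    exact h _ _ _ fun t => e a t ▸ ha t

theorem result : ∃ E F : Finset (ZMod 16), E.card = 3 ∧ F.card = 3 ∧ sidon E = √2 ∧ sidon F = √2 ∧
    ¬ Equivalent E F ∧ sidon E ≠ √(E.card) ∧ sidon F ≠ √(F.card) := by
  have h1 : sidon ({0, 1, 8} : Finset (ZMod 16)) = √2 := by
    refine val 1 (by decide) (by decide) fun a b c h => key a b c (c * w) (by simp [wn])
      (fun j hj => ?_) fun j hj => ?_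
    · have := h (4 * j : ℕ)
      rw [ZMod.val_cast_of_lt (by omega), show (1 : ZMod 16).val = 1 from rfl, one_mul, pow_mul, w4,
        pow_mul] at this
      convert this using 2; norm_num; ring
    · have := h (4 * j + 1 : ℕ)
      rw [ZMod.val_cast_of_lt (by omega), show (1 : ZMod 16).val = 1 from rfl, one_mul, pow_succ,
        pow_mul, w4, pow_succ, pow_mul] at this
      convert this using 2; norm_num; ring
  have h2 : sidon ({0, 2, 8} : Finset (ZMod 16)) = √2 := by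
    refine val 2 (by decide) (by decide) fun a b c h => key a b c (c * w ^ 2) (by simp [wn])
      (fun j hj => ?_) fun j hj => ?_
    · have := h (2 * j : ℕ)
      rw [ZMod.val_cast_of_lt (by omega), show (2 : ZMod 16).val = 2 from rfl, ← mul_assoc, pow_mul,
        show w ^ (2 * 2) = I from w4, pow_mul] at this
      convert this using 2; norm_num; ring
    · have := h (2 * j + 1 : ℕ)
      rw [ZMod.val_cast_of_lt (by omega), show (2 : ZMod 16).val = 2 from rfl, mul_add, ← mul_assoc,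
        pow_add, pow_mul, show w ^ (2 * 2) = I from w4, pow_succ (-1 : ℂ), pow_mul (-1 : ℂ)] at this
      convert this using 2; norm_num; ring
  have c1 : ({0, 1, 8} : Finset (ZMod 16)).card = 3 := by decide
  have c2 : ({0, 2, 8} : Finset (ZMod 16)).card = 3 := by decide
  have ne : √2 ≠ √((3 : ℕ) : ℝ) := fun h => by
    have := Real.sqrt_inj (by norm_num) (by norm_num) |>.1 h
    norm_num at this
  refine ⟨{0, 1, 8}, {0, 2, 8}, c1, c2, h1, h2, ?_, by rw [h1, c1]; exact ne, by rw [h2, c2]; exact ne⟩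
  rintro ⟨u, c, h⟩
  have : ∀ u v c : ZMod 16, u * v = 1 →
      ({0, 2, 8} : Finset (ZMod 16)) ≠ ({0, 1, 8} : Finset (ZMod 16)).image fun x => u * x + c := by
    decide +kernel
  exact this u u.inv c u.val_inv h

end Pool.Agent.Results.MP_e96fbd_an.Q1False
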